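import Pool.Agent.Lib_helper52.LQ.Defs
import Pool.Agent.Lib_helper16.LQ.R2
import Pool.Agent.Lib_helper86.LQ.R3

set_option autoImplicit false

namespace Pool.Agent.LQ

open MeasureTheory ENNReal Set Filter Topology Pool.Agent.EPS Pool.Agent.YG

variable {d : ℕ}

theorem la_int {Ω : Type} [MeasurableSpace Ω] (μ : Measure Ω) [IsProbabilityMeasure μ]
    {f : Ω → ℝ} (hf : Measurable f) (C : ℝ) (hC : ∀ x, |f x| ≤ C) : Integrable f μ :=
  Integrable.of_bound hf.aestronglyMeasurable C (Eventually.of_forall fun x => by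
    rw [Real.norm_eq_abs]; exact hC x)

theorem la_mp {Ω Ω' : Type} [MeasurableSpace Ω] [MeasurableSpace Ω'] {μ : Measure Ω}
    {ν : Measure Ω'} {f : Ω → Ω'} (hf : MeasurePreserving f μ ν) {h : Ω' → ℝ}
    (hh : Measurable h) : ∫ x, h (f x) ∂μ = ∫ y, h y ∂ν := by
  rw [← hf.map_eq, integral_map hf.measurable.aemeasurable hh.aestronglyMeasurable]

theorem la_mul {Ω : Type} {f g : Ω → ℝ} {C D : ℝ} (hf : ∀ x, |f x| ≤ C)
    (hg : ∀ x, |g x| ≤ D) (x : Ω) : |f x * g x| ≤ C * D := by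
  rw [abs_mul]
  exact mul_le_mul (hf x) (hg x) (abs_nonneg _) ((abs_nonneg _).trans (hf x))

theorem la_lin {Ω : Type} [MeasurableSpace Ω] {μ : Measure Ω} {a b c : Ω → ℝ}
    (ha : Integrable a μ) (hb : Integrable b μ) (hc : Integrable c μ) :
    ∫ x, (a x + (b x - c x)) ∂μ = ∫ x, a x ∂μ + (∫ x, b x ∂μ - ∫ x, c x ∂μ) := by
  have h : Integrable (fun x => b x - c x) μ := hb.sub hc
  rw [integral_add ha h, integral_sub hb hc]

/-- conditional independence given `Z` -/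
theorem la_zero (α β γ : Measure (Eu d)) [IsProbabilityMeasure α] [IsProbabilityMeasure β]
    [IsProbabilityMeasure γ] (lam : Eu d → ℝ) (hl : Measurable lam) (M : ℝ)
    (hM : ∀ u, |lam u| ≤ M) (G : Eu d × Eu d → ℝ) (hG : Measurable G) (C : ℝ)
    (hC : ∀ p, |G p| ≤ C) :
    ∫ p : Eu d × Eu d × Eu d, G (p.1, p.2.2) * (lam (p.2.1 + p.2.2) - ad β lam p.2.2)
      ∂(α.prod (β.prod γ)) = 0 := by
  obtain ⟨ma, ba⟩ := ad_bm β lam hl M hM
  have hm : Measurable fun p : Eu d × Eu d × Eu d =>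
      G (p.1, p.2.2) * (lam (p.2.1 + p.2.2) - ad β lam p.2.2) := by
    refine (hG.comp (measurable_fst.prodMk measurable_snd.snd)).mul ?_
    exact (hl.comp (measurable_snd.fst.add measurable_snd.snd)).sub (ma.comp measurable_snd.snd)
  have hb : ∀ p : Eu d × Eu d × Eu d,
      |G (p.1, p.2.2) * (lam (p.2.1 + p.2.2) - ad β lam p.2.2)| ≤ C * (M + M) := by
    intro p
    rw [abs_mul]
    refine mul_le_mul (hC _) ?_ (abs_nonneg _) ((abs_nonneg _).trans (hC (p.1, p.2.2)))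
    exact (abs_sub _ _).trans (add_le_add (hM _) (ba _))
  rw [integral_prod _ (la_int _ hm _ hb)]
  have h0 : ∀ x : Eu d, ∫ q : Eu d × Eu d, G (x, q.2) * (lam (q.1 + q.2) - ad β lam q.2)
      ∂(β.prod γ) = 0 := by
    intro x
    have hmx : Measurable fun q : Eu d × Eu d =>
        G (x, q.2) * (lam (q.1 + q.2) - ad β lam q.2) := by
      refine (hG.comp (measurable_const.prodMk measurable_snd)).mul ?_
      exact (hl.comp (measurable_fst.add measurable_snd)).sub (ma.comp measurable_snd)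
    have hbx : ∀ q : Eu d × Eu d,
        |G (x, q.2) * (lam (q.1 + q.2) - ad β lam q.2)| ≤ C * (M + M) := fun q => hb (x, q)
    rw [integral_prod_symm _ (la_int _ hmx _ hbx)]
    have h1 : ∀ z : Eu d, ∫ y : Eu d, G (x, z) * (lam (y + z) - ad β lam z) ∂β = 0 := by
      intro z
      rw [integral_const_mul, integral_sub, integral_const]
      · unfold ad
        simp
      · exact la_int _ (hl.comp (measurable_id.add measurable_const)) M fun y => hM _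
      · exact integrable_const _
    calc ∫ z : Eu d, ∫ y : Eu d, G (x, z) * (lam (y + z) - ad β lam z) ∂β ∂γ
        = ∫ _z : Eu d, (0 : ℝ) ∂γ := integral_congr_ae (Eventually.of_forall h1)
      _ = 0 := integral_zero _ _
  calc ∫ x : Eu d, ∫ q : Eu d × Eu d, G (x, q.2) * (lam (q.1 + q.2) - ad β lam q.2)
        ∂(β.prod γ) ∂α = ∫ _x : Eu d, (0 : ℝ) ∂α := integral_congr_ae (Eventually.of_forall h0)
    _ = 0 := integral_zero _ _

/-- Put `k = k₁ + (g - ad β lam)`, `F = κ₁ (x + z) + lam (y + z) - ad β lam z`. By `tri_wz`, `tri_u`,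
`tri_v`: `∫ kW² = ∫ k z * kW w = ∫ F * kW w`, hence `∫ kW² ≤ ∫ F²`; in `∫ F²` the mixed term
`κ₁ (x + z) (lam (y + z) - ad β lam z)` integrates to `0` (integrate over `y` first), and
`∫ (lam (y + z) - ad β lam z)² = ∫ lam² - ∫ (ad β lam)² = ∫ g * ad β lam - ∫ (ad β lam)²`. -/
theorem l_par (α β γ : Measure (Eu d)) [IsProbabilityMeasure α] [IsProbabilityMeasure β]
    [IsProbabilityMeasure γ] (k₁ g κ₁ lam kW : Eu d → ℝ) (hk : Bm k₁) (hg : Bm g)
    (h1 : Rg α γ k₁ κ₁) (h2 : Rg β γ g lam)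
    (h3 : Rg (α.conv β) γ (fun z => k₁ z + (g z - ad β lam z)) kW) :
    ∫ w, kW w ^ 2 ∂((α.conv β).conv γ) ≤ ∫ u, κ₁ u ^ 2 ∂(α.conv γ) +
      (∫ z, g z * ad β lam z ∂γ - ∫ z, ad β lam z ^ 2 ∂γ) := by
  obtain ⟨mk, Ck, bk⟩ := hk
  obtain ⟨mg, Cg, bg⟩ := hg
  have bκ := h1.bd Ck bk
  have bl := h2.bd Cg bg
  obtain ⟨ma, ba⟩ := ad_bm β lam h2.meas Cg bl
  have mK : Measurable fun z => k₁ z + (g z - ad β lam z) := mk.add (mg.sub ma)
  have bK : ∀ z, |k₁ z + (g z - ad β lam z)| ≤ Ck + (Cg + Cg) := fun z =>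
    (abs_add_le _ _).trans (add_le_add (bk z) ((abs_sub _ _).trans (add_le_add (bg z) (ba z))))
  have bW := h3.bd _ bK
  have hWm : Bm kW := ⟨h3.meas, _, bW⟩
  set CW : ℝ := Ck + (Cg + Cg) with hCW
  obtain ⟨l1, l2, lz, lyz, lxz, lxy, lw⟩ := laws α β γ
  set μ : Measure (Eu d × Eu d × Eu d) := α.prod (β.prod γ) with hμ
  -- measurable functions on the triple product
  have mx : Measurable fun p : Eu d × Eu d × Eu d => κ₁ (p.1 + p.2.2) :=
    h1.meas.comp (measurable_fst.add measurable_snd.snd)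
  have my : Measurable fun p : Eu d × Eu d × Eu d => lam (p.2.1 + p.2.2) :=
    h2.meas.comp (measurable_snd.fst.add measurable_snd.snd)
  have mz : Measurable fun p : Eu d × Eu d × Eu d => ad β lam p.2.2 := ma.comp measurable_snd.snd
  have mw : Measurable fun p : Eu d × Eu d × Eu d => kW (p.1 + p.2.1 + p.2.2) :=
    h3.meas.comp ((measurable_fst.add measurable_snd.fst).add measurable_snd.snd)
  have mk' : Measurable fun p : Eu d × Eu d × Eu d => k₁ p.2.2 := mk.comp measurable_snd.snd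
  have mg' : Measurable fun p : Eu d × Eu d × Eu d => g p.2.2 := mg.comp measurable_snd.snd
  have bx : ∀ p : Eu d × Eu d × Eu d, |κ₁ (p.1 + p.2.2)| ≤ Ck := fun p => bκ _
  have by' : ∀ p : Eu d × Eu d × Eu d, |lam (p.2.1 + p.2.2)| ≤ Cg := fun p => bl _
  have bz : ∀ p : Eu d × Eu d × Eu d, |ad β lam p.2.2| ≤ Cg := fun p => ba _
  have bw : ∀ p : Eu d × Eu d × Eu d, |kW (p.1 + p.2.1 + p.2.2)| ≤ CW := fun p => bW _
  have bk' : ∀ p : Eu d × Eu d × Eu d, |k₁ p.2.2| ≤ Ck := fun p => bk _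
  have bg' : ∀ p : Eu d × Eu d × Eu d, |g p.2.2| ≤ Cg := fun p => bg _
  -- the identity `∫ kW² = ∫ F kW`
  have e1 : ∫ w, kW w ^ 2 ∂((α.conv β).conv γ) =
      ∫ p : Eu d × Eu d × Eu d, (k₁ p.2.2 + (g p.2.2 - ad β lam p.2.2)) *
        kW (p.1 + p.2.1 + p.2.2) ∂μ := by
    have := tri_wz α β γ (fun z => k₁ z + (g z - ad β lam z)) kW kW ⟨mK, _, bK⟩ h3 hWm
    rw [this]
    refine integral_congr_ae (Eventually.of_forall fun w => ?_)
    change kW w ^ 2 = kW w * kW w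
    ring
  have e2 : ∫ p : Eu d × Eu d × Eu d, k₁ p.2.2 * kW (p.1 + p.2.1 + p.2.2) ∂μ =
      ∫ p : Eu d × Eu d × Eu d, κ₁ (p.1 + p.2.2) * kW (p.1 + p.2.1 + p.2.2) ∂μ := by
    have := tri_u α β γ k₁ κ₁ ⟨mk, Ck, bk⟩ h1 (fun q => kW (q.1 + q.2))
      (h3.meas.comp (measurable_fst.add measurable_snd)) CW (fun q => bW _)
    have hr : ∀ p : Eu d × Eu d × Eu d, p.1 + p.2.2 + p.2.1 = p.1 + p.2.1 + p.2.2 :=
      fun p => add_right_comm _ _ _
    simpa only [hr] using this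
  have e3 : ∫ p : Eu d × Eu d × Eu d, g p.2.2 * kW (p.1 + p.2.1 + p.2.2) ∂μ =
      ∫ p : Eu d × Eu d × Eu d, lam (p.2.1 + p.2.2) * kW (p.1 + p.2.1 + p.2.2) ∂μ := by
    have := tri_v α β γ g lam ⟨mg, Cg, bg⟩ h2 (fun q => kW (q.1 + q.2))
      (h3.meas.comp (measurable_fst.add measurable_snd)) CW (fun q => bW _)
    have hr : ∀ p : Eu d × Eu d × Eu d, p.2.1 + p.2.2 + p.1 = p.1 + p.2.1 + p.2.2 := by
      intro p
      rw [add_comm, ← add_assoc]
    simpa only [hr] using this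
  have i1 : Integrable (fun p : Eu d × Eu d × Eu d => k₁ p.2.2 * kW (p.1 + p.2.1 + p.2.2)) μ :=
    la_int _ (mk'.mul mw) _ (la_mul bk' bw)
  have i2 : Integrable (fun p : Eu d × Eu d × Eu d => g p.2.2 * kW (p.1 + p.2.1 + p.2.2)) μ :=
    la_int _ (mg'.mul mw) _ (la_mul bg' bw)
  have i3 : Integrable (fun p : Eu d × Eu d × Eu d =>
      ad β lam p.2.2 * kW (p.1 + p.2.1 + p.2.2)) μ :=
    la_int _ (mz.mul mw) _ (la_mul bz bw)
  have i4 : Integrable (fun p : Eu d × Eu d × Eu d =>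
      κ₁ (p.1 + p.2.2) * kW (p.1 + p.2.1 + p.2.2)) μ :=
    la_int _ (mx.mul mw) _ (la_mul bx bw)
  have i5 : Integrable (fun p : Eu d × Eu d × Eu d =>
      lam (p.2.1 + p.2.2) * kW (p.1 + p.2.1 + p.2.2)) μ :=
    la_int _ (my.mul mw) _ (la_mul by' bw)
  have e4 : ∫ w, kW w ^ 2 ∂((α.conv β).conv γ) =
      ∫ p : Eu d × Eu d × Eu d, (κ₁ (p.1 + p.2.2) + (lam (p.2.1 + p.2.2) - ad β lam p.2.2)) *
        kW (p.1 + p.2.1 + p.2.2) ∂μ := by
    rw [e1]
    have a1 : ∫ p : Eu d × Eu d × Eu d, (k₁ p.2.2 + (g p.2.2 - ad β lam p.2.2)) *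
        kW (p.1 + p.2.1 + p.2.2) ∂μ =
        ∫ p : Eu d × Eu d × Eu d, k₁ p.2.2 * kW (p.1 + p.2.1 + p.2.2) ∂μ +
        (∫ p : Eu d × Eu d × Eu d, g p.2.2 * kW (p.1 + p.2.1 + p.2.2) ∂μ -
        ∫ p : Eu d × Eu d × Eu d, ad β lam p.2.2 * kW (p.1 + p.2.1 + p.2.2) ∂μ) := by
      rw [← la_lin i1 i2 i3]
      refine integral_congr_ae (Eventually.of_forall fun p => ?_)
      ring
    have a2 : ∫ p : Eu d × Eu d × Eu d, (κ₁ (p.1 + p.2.2) +
        (lam (p.2.1 + p.2.2) - ad β lam p.2.2)) * kW (p.1 + p.2.1 + p.2.2) ∂μ =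
        ∫ p : Eu d × Eu d × Eu d, κ₁ (p.1 + p.2.2) * kW (p.1 + p.2.1 + p.2.2) ∂μ +
        (∫ p : Eu d × Eu d × Eu d, lam (p.2.1 + p.2.2) * kW (p.1 + p.2.1 + p.2.2) ∂μ -
        ∫ p : Eu d × Eu d × Eu d, ad β lam p.2.2 * kW (p.1 + p.2.1 + p.2.2) ∂μ) := by
      rw [← la_lin i4 i5 i3]
      refine integral_congr_ae (Eventually.of_forall fun p => ?_)
      ring
    rw [a1, a2, e2, e3]
  -- `∫ kW²` on the triple product
  have e5 : ∫ p : Eu d × Eu d × Eu d, kW (p.1 + p.2.1 + p.2.2) ^ 2 ∂μ =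
      ∫ w, kW w ^ 2 ∂((α.conv β).conv γ) := la_mp lw (h3.meas.pow_const 2)
  -- `∫ F²`
  have j1 : Integrable (fun p : Eu d × Eu d × Eu d => κ₁ (p.1 + p.2.2) ^ 2) μ := by
    have := la_int μ (mx.mul mx) _ (la_mul bx bx)
    refine this.congr (Eventually.of_forall fun p => ?_)
    simp only [Pi.mul_apply]
    ring
  have j2 : Integrable (fun p : Eu d × Eu d × Eu d => lam (p.2.1 + p.2.2) ^ 2) μ := by
    have := la_int μ (my.mul my) _ (la_mul by' by')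
    refine this.congr (Eventually.of_forall fun p => ?_)
    simp only [Pi.mul_apply]
    ring
  have j3 : Integrable (fun p : Eu d × Eu d × Eu d => ad β lam p.2.2 ^ 2) μ := by
    have := la_int μ (mz.mul mz) _ (la_mul bz bz)
    refine this.congr (Eventually.of_forall fun p => ?_)
    simp only [Pi.mul_apply]
    ring
  have mD : Measurable fun p : Eu d × Eu d × Eu d => lam (p.2.1 + p.2.2) - ad β lam p.2.2 :=
    my.sub mz
  have bD : ∀ p : Eu d × Eu d × Eu d, |lam (p.2.1 + p.2.2) - ad β lam p.2.2| ≤ Cg + Cg :=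
    fun p => (abs_sub _ _).trans (add_le_add (by' p) (bz p))
  have j4 : Integrable (fun p : Eu d × Eu d × Eu d =>
      κ₁ (p.1 + p.2.2) * (lam (p.2.1 + p.2.2) - ad β lam p.2.2)) μ :=
    la_int _ (mx.mul mD) _ (la_mul bx bD)
  have j5 : Integrable (fun p : Eu d × Eu d × Eu d =>
      ad β lam p.2.2 * (lam (p.2.1 + p.2.2) - ad β lam p.2.2)) μ :=
    la_int _ (mz.mul mD) _ (la_mul bz bD)
  have z4 : ∫ p : Eu d × Eu d × Eu d,
      κ₁ (p.1 + p.2.2) * (lam (p.2.1 + p.2.2) - ad β lam p.2.2) ∂μ = 0 :=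
    la_zero α β γ lam h2.meas Cg bl (fun q => κ₁ (q.1 + q.2))
      (h1.meas.comp (measurable_fst.add measurable_snd)) Ck (fun q => bκ _)
  have z5 : ∫ p : Eu d × Eu d × Eu d,
      ad β lam p.2.2 * (lam (p.2.1 + p.2.2) - ad β lam p.2.2) ∂μ = 0 :=
    la_zero α β γ lam h2.meas Cg bl (fun q => ad β lam q.2)
      (ma.comp measurable_snd) Cg (fun q => ba _)
  have f1 : ∫ p : Eu d × Eu d × Eu d, κ₁ (p.1 + p.2.2) ^ 2 ∂μ = ∫ u, κ₁ u ^ 2 ∂(α.conv γ) :=
    la_mp lxz (h1.meas.pow_const 2)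
  have f2 : ∫ p : Eu d × Eu d × Eu d, lam (p.2.1 + p.2.2) ^ 2 ∂μ =
      ∫ z, g z * ad β lam z ∂γ := by
    have := rg_adj β γ g lam lam ⟨mg, Cg, bg⟩ h2 ⟨h2.meas, Cg, bl⟩
    rw [← this, la_mp lyz (h2.meas.pow_const 2)]
    refine integral_congr_ae (Eventually.of_forall fun w => ?_)
    change lam w ^ 2 = lam w * lam w
    ring
  have f3 : ∫ p : Eu d × Eu d × Eu d, ad β lam p.2.2 ^ 2 ∂μ = ∫ z, ad β lam z ^ 2 ∂γ :=
    la_mp lz (ma.pow_const 2)
  have e6 : ∫ p : Eu d × Eu d × Eu d, (κ₁ (p.1 + p.2.2) +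
      (lam (p.2.1 + p.2.2) - ad β lam p.2.2)) ^ 2 ∂μ =
      ∫ u, κ₁ u ^ 2 ∂(α.conv γ) + (∫ z, g z * ad β lam z ∂γ - ∫ z, ad β lam z ^ 2 ∂γ) := by
    have j6 : Integrable (fun p : Eu d × Eu d × Eu d => κ₁ (p.1 + p.2.2) ^ 2 +
        (lam (p.2.1 + p.2.2) ^ 2 - ad β lam p.2.2 ^ 2)) μ := j1.add (j2.sub j3)
    have j7 := j4.const_mul 2
    have j8 := j5.const_mul 2
    have a1 : ∫ p : Eu d × Eu d × Eu d, (κ₁ (p.1 + p.2.2) +
        (lam (p.2.1 + p.2.2) - ad β lam p.2.2)) ^ 2 ∂μ =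
        ∫ p : Eu d × Eu d × Eu d, ((κ₁ (p.1 + p.2.2) ^ 2 + (lam (p.2.1 + p.2.2) ^ 2 -
          ad β lam p.2.2 ^ 2)) +
          (2 * (κ₁ (p.1 + p.2.2) * (lam (p.2.1 + p.2.2) - ad β lam p.2.2)) -
          2 * (ad β lam p.2.2 * (lam (p.2.1 + p.2.2) - ad β lam p.2.2)))) ∂μ := by
      refine integral_congr_ae (Eventually.of_forall fun p => ?_)
      ring
    rw [a1, la_lin j6 j7 j8, la_lin j1 j2 j3, integral_const_mul, integral_const_mul,
      z4, z5, f1, f2, f3]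
    ring
  -- conclusion
  have mF : Measurable fun p : Eu d × Eu d × Eu d => κ₁ (p.1 + p.2.2) +
      (lam (p.2.1 + p.2.2) - ad β lam p.2.2) := mx.add mD
  have bF : ∀ p : Eu d × Eu d × Eu d, |κ₁ (p.1 + p.2.2) +
      (lam (p.2.1 + p.2.2) - ad β lam p.2.2)| ≤ Ck + (Cg + Cg) :=
    fun p => (abs_add_le _ _).trans (add_le_add (bx p) (bD p))
  have g1 : Integrable (fun p : Eu d × Eu d × Eu d => (κ₁ (p.1 + p.2.2) +
      (lam (p.2.1 + p.2.2) - ad β lam p.2.2)) * kW (p.1 + p.2.1 + p.2.2)) μ :=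
    la_int _ (mF.mul mw) _ (la_mul bF bw)
  have g2 : Integrable (fun p : Eu d × Eu d × Eu d => (κ₁ (p.1 + p.2.2) +
      (lam (p.2.1 + p.2.2) - ad β lam p.2.2)) ^ 2) μ := by
    have := la_int μ (mF.mul mF) _ (la_mul bF bF)
    refine this.congr (Eventually.of_forall fun p => ?_)
    simp only [Pi.mul_apply]
    ring
  have g3 : Integrable (fun p : Eu d × Eu d × Eu d => kW (p.1 + p.2.1 + p.2.2) ^ 2) μ := by
    have := la_int μ (mw.mul mw) _ (la_mul bw bw)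
    refine this.congr (Eventually.of_forall fun p => ?_)
    simp only [Pi.mul_apply]
    ring
  have g4 : 2 * ∫ p : Eu d × Eu d × Eu d, (κ₁ (p.1 + p.2.2) +
      (lam (p.2.1 + p.2.2) - ad β lam p.2.2)) * kW (p.1 + p.2.1 + p.2.2) ∂μ ≤
      ∫ p : Eu d × Eu d × Eu d, (κ₁ (p.1 + p.2.2) +
      (lam (p.2.1 + p.2.2) - ad β lam p.2.2)) ^ 2 ∂μ +
      ∫ p : Eu d × Eu d × Eu d, kW (p.1 + p.2.1 + p.2.2) ^ 2 ∂μ := by
    rw [← integral_const_mul, ← integral_add g2 g3]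
    refine integral_mono (g1.const_mul 2) (g2.add g3) fun p => ?_
    nlinarith [sq_nonneg ((κ₁ (p.1 + p.2.2) + (lam (p.2.1 + p.2.2) - ad β lam p.2.2)) -
      kW (p.1 + p.2.1 + p.2.2))]
  rw [← e4, e5, e6] at g4
  linarith

end Pool.Agent.LQ
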